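import Mathlib
import Pool.Agent.Lib.MP_6216ea_lc.LTFinal
import Pool.Agent.Lib.MP_6216ea_lc.KADpda

/-!
# Context-free languages and nondeterministic branching programs of linear time

For every `k` there is a deterministic context-free language `L` such that every nondeterministic
branching program which accepts the words of length `n` of `L` with at most `k * n` queries has at
least `n ^ (c log n)` vertices; with `C * n ^ (1 + ε)` queries `n ^ (C sqrt (log n))` vertices are
enough for every deterministic context-free language, and the programs are unambiguous.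
-/

set_option autoImplicit false

namespace Pool.Agent.Results.MP_6216ea_lc.LinearTime

open Pool.Agent.MP_6216ea_lc

/-- **In linear time a pushdown store cannot be simulated with less than `log ^ 2` space, in time
`n ^ (1 + ε)` it can be simulated with `log ^ (3/2)` space.** -/
theorem result :
    (∀ k : ℕ, ∃ (Γ : Type) (_ : Fintype Γ) (M : DPDA Γ), M.language.IsContextFree ∧
      ∃ c : ℝ, 0 < c ∧ ∃ n₀ : ℕ, ∀ n ≥ n₀, ∀ P : LetterNBP (Fin n) Γ,
        (∀ x, P.Accepts x ↔ List.ofFn x ∈ M.language) →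
        (∀ x, P.Accepts x → P.AcceptsIn x (k * n)) →
        (n : ℝ) ^ (c * Real.log n) ≤ Fintype.card P.V) ∧
    ∀ (Γ : Type) (_ : Fintype Γ) (M : DPDA Γ) (ε : ℝ), 0 < ε → ∃ C : ℝ, ∀ n : ℕ, 2 ≤ n →
      ∀ y : Bool, ∃ (P : LetterNBP (Fin n) Γ) (q : ℕ),
        (Fintype.card P.V : ℝ) ≤ (n : ℝ) ^ (C * Real.sqrt (Real.log n)) ∧
          P.Unambiguous ∧ P.QueriesAtMost q ∧ (q : ℝ) ≤ C * (n : ℝ) ^ (1 + ε) ∧
          ∀ x, P.Accepts x ↔ (List.ofFn x ∈ M.language ↔ y = true) := by
  refine ⟨fun k => ?_, fun Γ _ M ε hε => KA.dpda_sqrt M ε hε⟩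
  obtain ⟨q, hq, c, hc, n₀, h⟩ := lt_final k
  exact ⟨LKind q × Fin q, inferInstance, lM q, dpda_language_cf _, c, hc, n₀, h⟩

end Pool.Agent.Results.MP_6216ea_lc.LinearTime
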