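import Mathlib
import Pool.Agent.Lib.MP_6216ea_lc.TVMain

/-!
# Deterministic context-free languages: the space depends on the number of turns

Every language which is log-space reducible to a deterministic context-free language is decided by
one deterministic program whose space on an input of length `n` is `O(log n)` times
`1 + log T / log log n`, where `T` is the number of turns of the pushdown automaton (or `n`, if
this is smaller): `O(log² n / log log n)` in general, and `O(log n)` if there are
polylogarithmically many turns. The program does not know `T`.

The program is a fixed while program over finitely many natural number variables; if all values are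
smaller than `B`, a Turing machine runs it on `O(log B)` work tape cells, and conversely a Turing
machine with `s ≥ log n` cells is such a program with values below `2 ^ O(s)`.
-/

set_option autoImplicit false

namespace Pool.Agent.Results.MP_6216ea_lc.LogDcflSpace

open Pool.Agent.MP_6216ea_lc

/-- **Languages in `CLOSURE (DCFL)` are decided in deterministic space
`O(log n (1 + log T / log log n))`, where `T ≤ n` is the number of turns.** -/
theorem result (α β : Type) [Finite α] [Finite β] (M : DetPDA β) (f : List α → List β)
    (hf : LogSpace f) :
    ∃ (c : Cmd α) (C : ℝ), ∀ x : List α, 3 ≤ x.length → ∃ (B : ℕ) (t : ℕ → ℕ),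
      Run x B c (fun _ => 0) t ∧ t 0 ≤ 1 ∧ (t 0 = 1 ↔ M.Accepts (f x)) ∧
        ∀ T : ℕ, (x.length ≤ T ∨ M.TurnsLe (f x) T) →
          (B : ℝ) ≤ (x.length : ℝ) ^ (C * (1 + Real.log T / Real.log (Real.log x.length))) :=
  TV.turns_main M hf

end Pool.Agent.Results.MP_6216ea_lc.LogDcflSpace
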