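import Mathlib
import Pool.Agent.Lib.MP_6216ea_lc.NUFinal

/-!
# A pushdown store against nondeterminism with few negative reads

There is a context-free language `L` of binary words that is closed under changing bits from `0`
to `1` and that is computed by monotone semi-unbounded fan-in circuits of polynomial size and
logarithmic depth (monotone LOGCFL), while nondeterministic branching programs for the words of
length `n` have to read many variables negatively: let `P` be such a program with at most `S ≥ n`
vertices and `tₖ` NOT gates of level `k` (negations of reachability statements), `T` in all. If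
`U` is a set of variables and on every input every true reachability statement of the program
(acceptance, or the statement of a gate) holds by a path that reads at most `r` variables of `U`
negatively, then

`|U| ≤ ∏ₖ (1 + tₖ) * (1 + (T + 1) * r) * 2 ^ (C * √(log₂ S))`.

Ordinary nondeterministic branching programs (nonuniform `NL`) are the case `T = 0`: for every
such program and every set `U` of variables there is a word in `L` for which every accepting
path tests at least `|U| / 2 ^ (C * √(log₂ S)) - 1` variables of `U` for `0`, although `L` is
monotone. In particular, all variables with at most `2 ^ (C * √(log₂ S))` exceptions have to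
be negated. If no variable is negated, then at least `log₂ n - C * √(log₂ S)` NOT gates are needed,
and without any negation `S ≥ n ^ (c log n)`.
-/

set_option autoImplicit false

namespace Pool.Agent.Results.MP_6216ea_lc.NegationLimited

open Pool.Agent.MP_6216ea_lc.NU

/-- **A pushdown store cannot be replaced by nondeterminism with few negative reads.** -/
theorem result :
    ∃ L : Language Bool, L.IsContextFree ∧
      (∀ (n : ℕ) (x y : Fin n → Bool), x ≤ y → List.ofFn x ∈ L → List.ofFn y ∈ L) ∧
      ∃ (C : ℝ) (n₀ : ℕ), ∀ n ≥ n₀,
        (∃ A : SemiUnboundedCircuit n, Fintype.card A.Gate ≤ n ^ 9 ∧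
          (∀ a, (A.level a : ℝ) ≤ C * Real.log n) ∧
          ∀ x, A.val A.out x ↔ List.ofFn x ∈ L) ∧
        ∀ (S T r : ℕ) (P : NotNBP n T) (U : Set (Fin n)), n ≤ S → Fintype.card P.V ≤ S →
          (∀ x, P.Accepts x ↔ List.ofFn x ∈ L) → P.NegReads U r →
          (U.ncard : ℝ) ≤ P.gates * (1 + (T + 1) * r) * 2 ^ (C * √(Real.logb 2 S)) := by
  refine ⟨uni, uni_isContextFree, uni_raise, 402, 256, ?_⟩
  intro n hn
  refine ⟨?_, ?_⟩
  · obtain ⟨A, hA1, hA2, hA3⟩ := uni_circ n hn
    exact ⟨A, hA1, fun a => level_bound n hn _ (hA2 a), hA3⟩
  · intro S T r P U hnS hPS hP hr
    exact uni_lower_real n (le_trans (by norm_num) hn) S T r P U hr hnS hPS hP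

end Pool.Agent.Results.MP_6216ea_lc.NegationLimited
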