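import Mathlib
import Pool.Agent.Lib.MP_6216ea_lc.SN.FinalL

/-!
# Deterministic context-free languages in unambiguous space `(log n) ^ (3/2)`

Every language which is log-space reducible to a deterministic context-free language, and its
complement, is decided by one unambiguous nondeterministic program in space
`O((log n) ^ (3/2))` with polynomially many guesses.

The program is a fixed nondeterministic while program over finitely many natural number
variables; if all values are smaller than `B`, a nondeterministic Turing machine runs it on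
`O(log B)` work tape cells.
-/

set_option autoImplicit false

namespace Pool.Agent.Results.MP_6216ea_lc.SqrtLog

open Pool.Agent.MP_6216ea_lc

/-- **`CLOSURE (DCFL) ⊆ UNSPACE ((log n) ^ (3/2))`.** -/
theorem result (α β : Type) [Finite α] [Finite β] (M : DetPDA β) (f : List α → List β)
    (hf : LogSpace f) :
    ∃ (c : NCmd α) (C : ℝ) (e : ℕ), ∀ x : List α, 3 ≤ x.length →
      ∃ (B : ℕ) (g : List ℕ) (t : ℕ → ℕ),
        (B : ℝ) ≤ (x.length : ℝ) ^ (C * Real.sqrt (Real.log x.length)) ∧
          g.length ≤ x.length ^ e ∧ NRun x B c (fun _ => 0) g t ∧ t 0 ≤ 1 ∧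
          (t 0 = 1 ↔ M.Accepts (f x)) ∧
          ∀ (B' : ℕ) (g' : List ℕ) (t' : ℕ → ℕ), NRun x B' c (fun _ => 0) g' t' →
            g' = g ∧ t' 0 = t 0 :=
  SN.closure_mainL M hf

end Pool.Agent.Results.MP_6216ea_lc.SqrtLog
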